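import Pool.Agent.NPC.Defs
import Pool.Agent.H634R2.GraphDefs

set_option autoImplicit false

/-!
# Total domination and the sub-total domination number
-/

namespace Pool.Agent.X130.TD

open Pool.Agent.NPC Pool.Agent.NPC.H634R2

/-- Adjacency in the graph with edge list `E`. -/
def Adj (E : List (ℕ × ℕ)) (u v : ℕ) : Prop := (u, v) ∈ E ∨ (v, u) ∈ E

/-- The degree of `v`: the number of edges in the list `E` with end `v`. -/
def deg (E : List (ℕ × ℕ)) (v : ℕ) : ℕ := E.countP (fun e => decide (e.1 = v ∨ e.2 = v))

/-- `S` is a total dominating set: a set of vertices such that every vertex has a neighbour in `S`. -/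
def IsTDS (V : List ℕ) (E : List (ℕ × ℕ)) (S : Finset ℕ) : Prop :=
  (∀ v ∈ S, v ∈ V) ∧ ∀ v ∈ V, ∃ u ∈ S, Adj E u v

/-- The total domination number. -/
noncomputable def gammaT (V : List ℕ) (E : List (ℕ × ℕ)) : ℕ :=
  sInf {k : ℕ | ∃ S : Finset ℕ, IsTDS V E S ∧ S.card = k}

/-- The degree sequence in non-increasing order. -/
def degSeq (V : List ℕ) (E : List (ℕ × ℕ)) : List ℕ :=
  (V.map (deg E)).mergeSort (fun a b => decide (b ≤ a))

/-- The sub-total domination number: the least `k` such that the `k` largest degrees have a sum of at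
least the number of vertices. -/
noncomputable def subT (V : List ℕ) (E : List (ℕ × ℕ)) : ℕ :=
  sInf {k : ℕ | k ≤ V.length ∧ V.length ≤ ((degSeq V E).take k).sum}

/-- The decision problem TDS-EQ: the data describe a finite simple graph without isolated vertices
whose total domination number and sub-total domination number are equal. -/
def TDSEQ (G : List ℕ × List (ℕ × ℕ)) : Prop :=
  IsGraph G.1 G.2 ∧ (∀ v ∈ G.1, ∃ u, Adj G.2 u v) ∧ gammaT G.1 G.2 = subT G.1 G.2

end Pool.Agent.X130.TD
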