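import Mathlib
import Pool.Agent.X130.TD.Defs
import Pool.Agent.H632R2.X3C

set_option autoImplicit false

/-!
# Auxiliary facts: exact covers by indices, sums of the largest elements
-/

namespace Pool.Agent.X130.TD

open Pool.Agent.NPC Pool.Agent.NPC.H632

theorem flatMap_el_length (C : List (ℕ × ℕ × ℕ)) : (C.flatMap el).length = 3 * C.length := by
  rw [List.length_flatMap]
  have : ∀ t ∈ C, (el t).length = 3 := fun t _ => rfl
  rw [List.map_congr_left this]
  simp [mul_comm]

/-- exact covers in terms of indices -/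
theorem X3C_iff_index {I : List (ℕ × ℕ × ℕ) × ℕ} :
    X3C I ↔ ∃ J : Finset ℕ, (∀ j ∈ J, j < I.1.length) ∧ J.card ≤ I.2 ∧
      ∀ x < 3 * I.2, ∃ j ∈ J, ∃ t, I.1[j]? = some t ∧ x ∈ el t := by
  classical
  constructor
  · rintro ⟨C, hC, hp⟩
    have hlen := X3C_length hp
    have hex : ∀ t ∈ C, ∃ j, j < I.1.length ∧ I.1[j]? = some t := fun t ht => by
      obtain ⟨j, hj, h⟩ := List.getElem_of_mem (hC t ht)
      exact ⟨j, hj, by rw [List.getElem?_eq_getElem hj, h]⟩
    choose! f hf using hex
    refine ⟨C.toFinset.image f, ?_, ?_, ?_⟩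
    · intro j hj
      obtain ⟨t, ht, rfl⟩ := Finset.mem_image.1 hj
      exact (hf t (List.mem_toFinset.1 ht)).1
    · exact (Finset.card_image_le.trans (List.toFinset_card_le _)).trans hlen.le
    · intro x hx
      obtain ⟨t, ht, hxt⟩ := List.mem_flatMap.1 (hp.mem_iff.2 (List.mem_range.2 hx))
      exact ⟨f t, Finset.mem_image_of_mem _ (List.mem_toFinset.2 ht), t, (hf t ht).2, hxt⟩
  · rintro ⟨J, hJ, hc, hcov⟩
    have hex : ∀ j ∈ J, ∃ t, I.1[j]? = some t := fun j hj =>
      ⟨_, List.getElem?_eq_getElem (hJ j hj)⟩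
    choose! f hf using hex
    refine ⟨J.toList.map f, ?_, ?_⟩
    · intro t ht
      obtain ⟨j, hj, rfl⟩ := List.mem_map.1 ht
      exact List.mem_of_getElem? (hf j (Finset.mem_toList.1 hj))
    · symm
      apply List.Subperm.perm_of_length_le
      · refine List.nodup_range.subperm ?_
        intro x hx
        obtain ⟨j, hj, t, h1, h2⟩ := hcov x (List.mem_range.1 hx)
        rw [List.mem_flatMap]
        refine ⟨f j, List.mem_map_of_mem (Finset.mem_toList.2 hj), ?_⟩
        have h3 := hf j hj
        rw [h1] at h3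
        rwa [← Option.some.inj h3]
      · rw [flatMap_el_length, List.length_map, Finset.length_toList, List.length_range]
        omega

/-- The sum of the first elements of a non-increasing list is the largest sum of as many elements. -/
theorem sum_le_take : ∀ (l : List ℕ), l.Pairwise (fun a b => b ≤ a) → ∀ l' : List ℕ, l'.Subperm l →
    l'.sum ≤ (l.take l'.length).sum
  | [], _, l', h => by
    have := h.length_le
    have h2 : l' = [] := List.eq_nil_of_length_eq_zero (by simpa using this)
    subst h2
    simp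
  | a :: l, hl, l', h => by
    rw [List.pairwise_cons] at hl
    by_cases hn : l' = []
    · subst hn; simp
    by_cases ha : a ∈ l'
    · obtain ⟨l₃, hp⟩ : ∃ l₃, l'.Perm (a :: l₃) := ⟨l'.erase a, List.perm_cons_erase ha⟩
      have h2 : l₃.Subperm l := by
        have h3 : (a :: l₃).Subperm (a :: l) := hp.symm.subperm.trans h
        exact List.subperm_cons a |>.1 h3
      have ih := sum_le_take l hl.2 l₃ h2
      rw [hp.sum_eq, hp.length_eq]
      simp only [List.sum_cons, List.length_cons, List.take_succ_cons]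
      omega
    · obtain ⟨b, hb⟩ := List.exists_mem_of_ne_nil l' hn
      obtain ⟨l₃, hp⟩ : ∃ l₃, l'.Perm (b :: l₃) := ⟨l'.erase b, List.perm_cons_erase hb⟩
      have h1 : l'.Subperm l := by
        have h3 := List.Subperm.erase a h
        rw [List.erase_of_not_mem ha, List.erase_cons_head] at h3
        exact h3
      have hbl : b ≤ a := hl.1 b (h1.subset hb)
      have h2 : l₃.Subperm l := by
        have h3 : l₃.Subperm (b :: l₃) := (List.sublist_cons_self b l₃).subperm
        exact (h3.trans hp.symm.subperm).trans h1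
      have ih := sum_le_take l hl.2 l₃ h2
      rw [hp.sum_eq, hp.length_eq]
      simp only [List.sum_cons, List.length_cons, List.take_succ_cons]
      omega

theorem degSeq_perm (V : List ℕ) (E : List (ℕ × ℕ)) : (degSeq V E).Perm (V.map (deg E)) :=
  List.mergeSort_perm _ _

theorem degSeq_sorted (V : List ℕ) (E : List (ℕ × ℕ)) : (degSeq V E).Pairwise (fun a b => b ≤ a) := by
  have h := List.pairwise_mergeSort (le := fun a b : ℕ => decide (b ≤ a)) (by
    intro a b c h1 h2
    simp only [decide_eq_true_eq] at h1 h2 ⊢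
    omega) (by
    intro a b
    simp only [Bool.or_eq_true, decide_eq_true_eq]
    omega) (V.map (deg E))
  exact h.imp (fun h => by simpa using h)

/-- computing `subT` -/
theorem subT_eq {V : List ℕ} {E : List (ℕ × ℕ)} {k d : ℕ} (hk : k + 1 ≤ V.length)
    (hd : ∀ v ∈ V, deg E v ≤ d) (h1 : k * d < V.length) (L : List ℕ) (hL : L.Subperm V)
    (hLk : L.length = k + 1) (h2 : V.length ≤ (L.map (deg E)).sum) : subT V E = k + 1 := by
  have hmem : k + 1 ∈ {k : ℕ | k ≤ V.length ∧ V.length ≤ ((degSeq V E).take k).sum} := by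
    refine ⟨hk, h2.trans ?_⟩
    have h3 : (L.map (deg E)).Subperm (degSeq V E) := by
      obtain ⟨l₀, hp, hs⟩ := hL
      exact List.Subperm.trans ⟨l₀.map (deg E), hp.map _, hs.map _⟩ (degSeq_perm V E).symm.subperm
    have h4 := sum_le_take _ (degSeq_sorted V E) _ h3
    rwa [List.length_map, hLk] at h4
  refine le_antisymm (Nat.sInf_le hmem) ?_
  have h5 := Nat.sInf_mem (s := {k : ℕ | k ≤ V.length ∧ V.length ≤ ((degSeq V E).take k).sum}) ⟨_, hmem⟩
  by_contra hcon
  have hlt : subT V E ≤ k := by omega
  have h6 : V.length ≤ ((degSeq V E).take (subT V E)).sum := h5.2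
  have h7 : ((degSeq V E).take (subT V E)).sum ≤ subT V E * d := by
    have h8 : ∀ x ∈ (degSeq V E).take (subT V E), x ≤ d := by
      intro x hx
      have h9 := (degSeq_perm V E).mem_iff.1 (List.mem_of_mem_take hx)
      obtain ⟨v, hv, rfl⟩ := List.mem_map.1 h9
      exact hd v hv
    have h10 := List.sum_le_card_nsmul _ d h8
    refine h10.trans ?_
    rw [smul_eq_mul]
    exact Nat.mul_le_mul_right _ (by rw [List.length_take]; exact min_le_left _ _)
  have h11 : subT V E * d ≤ k * d := Nat.mul_le_mul_right _ hlt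
  omega

end Pool.Agent.X130.TD
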