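import Mathlib
import Pool.Agent.X130.TD.Pre
import Pool.Agent.X130.RB.UndNP

set_option autoImplicit false

/-!
# The reduction from exact cover by 3-sets to TDS-EQ
-/

namespace Pool.Agent.X130.TD

open Pool.Agent.NPC Pool.Agent.NPC.H632 Pool.Agent.NPC.H634R2

/-- edges between a triple and the `m` copies of its elements -/
def inc (m : ℕ) (p : (ℕ × ℕ × ℕ) × ℕ) : List (ℕ × ℕ) :=
  (el p.1).flatMap (fun x => (List.range m).map (fun i => (3 * p.2, 3 * (x * m + i) + 1)))

/-- edges between the triples and the copies of the elements -/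
def E1 (T : List (ℕ × ℕ × ℕ)) : List (ℕ × ℕ) := T.zipIdx.flatMap (fun p => inc T.length p)

/-- edges between the hub `2` and the triples -/
def E2 (T : List (ℕ × ℕ × ℕ)) : List (ℕ × ℕ) := T.zipIdx.map (fun p => (2, 3 * p.2))

/-- all edges -/
def Ed (T : List (ℕ × ℕ × ℕ)) : List (ℕ × ℕ) := E1 T ++ (E2 T ++ [(2, 5)])

/-- all vertices -/
def Ve (T : List (ℕ × ℕ × ℕ)) (q : ℕ) : List ℕ :=
  2 :: 5 :: (T.zipIdx.map (fun p => 3 * p.2) ++ (List.range (3 * q * T.length)).map (fun y => 3 * y + 1))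

/-- the reduction -/
def tred (I : List (ℕ × ℕ × ℕ) × ℕ) : List ℕ × List (ℕ × ℕ) :=
  if (List.range (3 * min I.2 I.1.length)).all (fun x => I.1.any (fun t => decide (x ∈ el t))) then
    (Ve I.1 (min I.2 I.1.length), Ed I.1)
  else ([0, 1, 2, 3, 4], [(0, 1), (1, 2), (0, 2), (3, 4)])

theorem snd_nodup {β : Type} (E : List β) : (E.zipIdx.map Prod.snd).Nodup := by
  rw [List.zipIdx_map_snd]
  exact List.nodup_range'

theorem mem_zip {T : List (ℕ × ℕ × ℕ)} {t : ℕ × ℕ × ℕ} {j : ℕ} :
    (t, j) ∈ T.zipIdx ↔ T[j]? = some t := by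
  rw [List.mem_zipIdx_iff_getElem?]

theorem zip_lt {T : List (ℕ × ℕ × ℕ)} {p : (ℕ × ℕ × ℕ) × ℕ} (h : p ∈ T.zipIdx) : p.2 < T.length := by
  obtain ⟨t, j⟩ := p
  rw [mem_zip] at h
  exact (List.getElem?_eq_some_iff.1 h).1

theorem zip_mem {T : List (ℕ × ℕ × ℕ)} {p : (ℕ × ℕ × ℕ) × ℕ} (h : p ∈ T.zipIdx) : p.1 ∈ T := by
  obtain ⟨t, j⟩ := p
  rw [mem_zip] at h
  exact List.mem_of_getElem? h

theorem zip_ex {T : List (ℕ × ℕ × ℕ)} {j : ℕ} (h : j < T.length) : ∃ p ∈ T.zipIdx, p.2 = j :=
  ⟨(T[j], j), by rw [mem_zip, List.getElem?_eq_getElem h], rfl⟩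

theorem mem_inc {m : ℕ} {p : (ℕ × ℕ × ℕ) × ℕ} {a : ℕ × ℕ} : a ∈ inc m p ↔
    ∃ x ∈ el p.1, ∃ i < m, a = (3 * p.2, 3 * (x * m + i) + 1) := by
  unfold inc
  simp only [List.mem_flatMap, List.mem_map, List.mem_range, eq_comm]

theorem mem_Ed {T : List (ℕ × ℕ × ℕ)} {a b : ℕ} : (a, b) ∈ Ed T ↔
    (∃ p ∈ T.zipIdx, ∃ x ∈ el p.1, ∃ i < T.length, a = 3 * p.2 ∧ b = 3 * (x * T.length + i) + 1) ∨
    (∃ p ∈ T.zipIdx, a = 2 ∧ b = 3 * p.2) ∨ (a = 2 ∧ b = 5) := by
  unfold Ed E1 E2
  simp only [List.mem_append, List.mem_flatMap, mem_inc, List.mem_map, List.mem_singleton, Prod.mk.injEq,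
    eq_comm]

theorem mem_Ve {T : List (ℕ × ℕ × ℕ)} {q v : ℕ} : v ∈ Ve T q ↔
    v = 2 ∨ v = 5 ∨ (∃ p ∈ T.zipIdx, v = 3 * p.2) ∨ ∃ y < 3 * q * T.length, v = 3 * y + 1 := by
  unfold Ve
  simp only [List.mem_cons, List.mem_append, List.mem_map, List.mem_range, eq_comm]

theorem copy_lt {q m x i : ℕ} (hx : x < 3 * q) (hi : i < m) : x * m + i < 3 * q * m := by
  have : (x + 1) * m ≤ 3 * q * m := Nat.mul_le_mul_right _ hx
  nlinarith

theorem copy_inj {m x i x' i' : ℕ} (hi : i < m) (hi' : i' < m) (h : x * m + i = x' * m + i') :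
    x = x' ∧ i = i' := by
  have hm : 0 < m := by omega
  have h1 : (x * m + i) / m = x := by
    rw [mul_comm, Nat.mul_add_div hm, Nat.div_eq_of_lt hi, add_zero]
  have h2 : (x' * m + i') / m = x' := by
    rw [mul_comm, Nat.mul_add_div hm, Nat.div_eq_of_lt hi', add_zero]
  have h3 : x = x' := by rw [← h1, ← h2, h]
  subst h3
  exact ⟨rfl, by omega⟩

theorem isGraph_T {T : List (ℕ × ℕ × ℕ)} {q : ℕ} (hT : ∀ t ∈ T, (el t).Nodup ∧ ∀ x ∈ el t, x < 3 * q) :
    IsGraph (Ve T q) (Ed T) := by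
  refine ⟨?_, ?_, ?_⟩
  · unfold Ve
    rw [List.nodup_cons, List.nodup_cons, List.nodup_append']
    refine ⟨?_, ?_, ?_, ?_, ?_⟩
    · simp only [List.mem_cons, List.mem_append, List.mem_map, not_or]
      refine ⟨by omega, ?_, ?_⟩
      · rintro ⟨x, _, hx⟩; omega
      · rintro ⟨x, _, hx⟩; omega
    · simp only [List.mem_append, List.mem_map, not_or]
      refine ⟨?_, ?_⟩
      · rintro ⟨x, _, hx⟩; omega
      · rintro ⟨x, _, hx⟩; omega
    · have h2 := (snd_nodup T).map (f := fun j : ℕ => 3 * j)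
        (fun a b (hab : 3 * a = 3 * b) => by omega)
      rwa [List.map_map] at h2
    · exact List.nodup_range.map (fun a b (hab : 3 * a + 1 = 3 * b + 1) => by omega)
    · intro x hx hx'
      rw [List.mem_map] at hx hx'
      obtain ⟨a, _, ha⟩ := hx
      obtain ⟨b, _, hb⟩ := hx'
      omega
  · rintro ⟨a, b⟩ he
    simp only [mem_Ve]
    rw [mem_Ed] at he
    rcases he with ⟨p, hp, x, hx, i, hi, rfl, rfl⟩ | ⟨p, hp, rfl, rfl⟩ | ⟨rfl, rfl⟩
    · exact ⟨Or.inr (Or.inr (Or.inl ⟨p, hp, rfl⟩)), Or.inr (Or.inr (Or.inr ⟨_,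
        copy_lt ((hT _ (zip_mem hp)).2 x hx) hi, rfl⟩)), by omega⟩
    · exact ⟨Or.inl rfl, Or.inr (Or.inr (Or.inl ⟨p, hp, rfl⟩)), by omega⟩
    · exact ⟨Or.inl rfl, Or.inr (Or.inl rfl), by omega⟩
  · unfold Ed
    simp only [List.map_append]
    rw [List.nodup_append', List.nodup_append']
    refine ⟨?_, ⟨?_, by simp, ?_⟩, ?_⟩
    · unfold E1
      refine List.Nodup.map_on ?_ ?_
      · intro a ha b hb hab
        simp only [List.mem_flatMap, mem_inc] at ha hb
        obtain ⟨p, _, x, _, i, _, rfl⟩ := ha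
        obtain ⟨p', _, x', _, i', _, rfl⟩ := hb
        simp only [Sym2.eq_iff] at hab
        simp only [Prod.mk.injEq]
        omega
      · rw [List.nodup_flatMap]
        refine ⟨fun p hp => ?_, ?_⟩
        · unfold inc
          rw [List.nodup_flatMap]
          refine ⟨fun x _ => List.nodup_range.map (fun a b h => by
            simp only [Prod.mk.injEq] at h; omega), ?_⟩
          refine (hT _ (zip_mem hp)).1.imp ?_
          intro x y hxy a ha hb
          simp only [List.mem_map, List.mem_range] at ha hb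
          obtain ⟨i, hi, rfl⟩ := ha
          obtain ⟨j, hj, h⟩ := hb
          simp only [Prod.mk.injEq] at h
          exact hxy (copy_inj hi hj (by omega)).1
        · refine ((List.pairwise_map.1 (snd_nodup T))).imp ?_
          intro p q hpq a ha hb
          rw [mem_inc] at ha hb
          obtain ⟨x, _, i, _, rfl⟩ := ha
          obtain ⟨x', _, i', _, h⟩ := hb
          simp only [Prod.mk.injEq] at h
          omega
    · unfold E2
      rw [List.map_map]
      refine List.Nodup.map_on ?_ (List.Nodup.of_map _ (snd_nodup T))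
      intro p hp q hq hpq
      simp only [Function.comp_apply, Sym2.eq_iff] at hpq
      exact List.inj_on_of_nodup_map (snd_nodup T) hp hq (by omega)
    · intro a ha hb
      unfold E2 at ha
      simp only [List.map_map, List.mem_map, Function.comp_apply, List.map_cons, List.map_nil,
        List.mem_singleton] at ha hb
      obtain ⟨p, _, rfl⟩ := ha
      rw [Sym2.eq_iff] at hb
      omega
    · intro a ha hb
      unfold E1 at ha
      unfold E2 at hb
      simp only [List.map_map, List.mem_map, List.mem_append, List.mem_flatMap, mem_inc,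
        Function.comp_apply, List.map_cons, List.map_nil, List.mem_singleton] at ha hb
      obtain ⟨e, ⟨p, _, x, _, i, _, rfl⟩, rfl⟩ := ha
      rcases hb with ⟨p', _, hb⟩ | hb
      · rw [Sym2.eq_iff] at hb
        omega
      · rw [Sym2.eq_iff] at hb
        omega

/-! ### Degrees -/

theorem deg_append (E E' : List (ℕ × ℕ)) (v : ℕ) : deg (E ++ E') v = deg E v + deg E' v := by
  unfold deg
  rw [List.countP_append]

theorem deg_flatMap {α : Type} (L : List α) (f : α → List (ℕ × ℕ)) (v : ℕ) :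
    deg (L.flatMap f) v = (L.map (fun p => deg (f p) v)).sum := by
  unfold deg
  rw [List.countP_flatMap]
  rfl

theorem deg_zero {E : List (ℕ × ℕ)} {v : ℕ} (h : ∀ a ∈ E, a.1 ≠ v ∧ a.2 ≠ v) : deg E v = 0 := by
  unfold deg
  rw [List.countP_eq_zero]
  intro a ha
  have := h a ha
  simp only [decide_eq_true_eq, not_or]
  exact this

theorem deg_all {E : List (ℕ × ℕ)} {v : ℕ} (h : ∀ a ∈ E, a.1 = v ∨ a.2 = v) : deg E v = E.length := by
  unfold deg
  rw [List.countP_eq_length]
  intro a ha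
  have := h a ha
  simpa using this

theorem sum_ite_nodup {β : Type} (L : List (β × ℕ)) (hL : (L.map Prod.snd).Nodup) (j c : ℕ)
    (hj : j ∈ L.map Prod.snd) : (L.map (fun p => if p.2 = j then c else 0)).sum = c := by
  induction L with
  | nil => simp at hj
  | cons p L ih =>
    simp only [List.map_cons, List.nodup_cons, List.mem_cons, List.sum_cons] at hL hj ⊢
    by_cases h : p.2 = j
    · subst h
      have h0 : (L.map (fun p' => if p'.2 = p.2 then c else 0)).sum = 0 := by
        rw [List.sum_eq_zero_iff]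
        intro x hx
        obtain ⟨p', hp', rfl⟩ := List.mem_map.1 hx
        rw [if_neg]
        intro h
        exact hL.1 (List.mem_map.2 ⟨p', hp', h⟩)
      rw [h0]
      simp
    · rw [if_neg h, zero_add]
      exact ih hL.2 (by rcases hj with hj | hj; exact absurd hj.symm h; exact hj)

theorem deg_inc (m : ℕ) (p : (ℕ × ℕ × ℕ) × ℕ) (j : ℕ) :
    deg (inc m p) (3 * j) = if p.2 = j then 3 * m else 0 := by
  by_cases h : p.2 = j
  · rw [if_pos h, deg_all]
    · simp [inc, el, List.length_flatMap]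
      ring
    · intro a ha
      obtain ⟨x, _, i, _, rfl⟩ := mem_inc.1 ha
      left
      simp only
      omega
  · rw [if_neg h, deg_zero]
    intro a ha
    obtain ⟨x, _, i, _, rfl⟩ := mem_inc.1 ha
    simp only
    omega

theorem deg_inc_copy (m : ℕ) (p : (ℕ × ℕ × ℕ) × ℕ) (y : ℕ) : deg (inc m p) (3 * y + 1) ≤ 3 := by
  unfold inc
  rw [deg_flatMap]
  have h : ∀ x : ℕ, deg ((List.range m).map (fun i => (3 * p.2, 3 * (x * m + i) + 1))) (3 * y + 1) ≤ 1 := by
    intro x
    unfold deg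
    rw [List.countP_map]
    have h1 : ∀ i ∈ List.range m, (((fun e : ℕ × ℕ => decide (e.1 = 3 * y + 1 ∨ e.2 = 3 * y + 1)) ∘
        fun i => (3 * p.2, 3 * (x * m + i) + 1)) i) = true → (i == (y - x * m)) = true := by
      intro i _ hi
      simp only [Function.comp_apply, decide_eq_true_eq] at hi
      simp only [beq_iff_eq]
      omega
    refine (List.countP_mono_left h1).trans ?_
    exact List.nodup_iff_count_le_one.1 List.nodup_range _
  simp only [el, List.map_cons, List.map_nil, List.sum_cons, List.sum_nil]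
  have h1 := h p.1.1
  have h2 := h p.1.2.1
  have h3 := h p.1.2.2
  omega

theorem deg_triple {T : List (ℕ × ℕ × ℕ)} {j : ℕ} (hj : j < T.length) :
    deg (Ed T) (3 * j) = 3 * T.length + 1 := by
  unfold Ed
  rw [deg_append, deg_append]
  have hmem : j ∈ T.zipIdx.map Prod.snd := by
    obtain ⟨p, hp, h⟩ := zip_ex hj
    exact List.mem_map.2 ⟨p, hp, h⟩
  have h1 : deg (E1 T) (3 * j) = 3 * T.length := by
    unfold E1
    rw [deg_flatMap]
    simp only [deg_inc]
    exact sum_ite_nodup _ (snd_nodup T) j _ hmem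
  have h2 : deg (E2 T) (3 * j) = 1 := by
    have h3 : E2 T = T.zipIdx.flatMap (fun p => [(2, 3 * p.2)]) := by
      unfold E2
      rw [List.map_eq_flatMap]
    rw [h3, deg_flatMap, ← sum_ite_nodup _ (snd_nodup T) j 1 hmem]
    congr 1
    refine List.map_congr_left fun p _ => ?_
    unfold deg
    simp only [List.countP_cons, List.countP_nil, decide_eq_true_eq, zero_add]
    by_cases h : p.2 = j
    · rw [if_pos h, if_pos (by omega)]
    · rw [if_neg h, if_neg (by omega)]
  have h3 : deg [(2, 5)] (3 * j) = 0 := deg_zero fun a ha => by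
    simp only [List.mem_singleton] at ha
    subst ha
    simp only
    omega
  omega

theorem deg_hub (T : List (ℕ × ℕ × ℕ)) : deg (Ed T) 2 = T.length + 1 := by
  unfold Ed
  rw [deg_append, deg_append]
  have h1 : deg (E1 T) 2 = 0 := deg_zero fun a ha => by
    unfold E1 at ha
    simp only [List.mem_flatMap, mem_inc] at ha
    obtain ⟨p, _, x, _, i, _, rfl⟩ := ha
    simp only
    omega
  have h2 : deg (E2 T) 2 = T.length := by
    rw [deg_all]
    · simp [E2]
    · intro a ha
      unfold E2 at ha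
      obtain ⟨p, _, rfl⟩ := List.mem_map.1 ha
      exact Or.inl rfl
  have h3 : deg [(2, 5)] 2 = 1 := by decide
  omega

theorem deg_pendant (T : List (ℕ × ℕ × ℕ)) : deg (Ed T) 5 = 1 := by
  unfold Ed
  rw [deg_append, deg_append]
  have h1 : deg (E1 T) 5 = 0 := deg_zero fun a ha => by
    unfold E1 at ha
    simp only [List.mem_flatMap, mem_inc] at ha
    obtain ⟨p, _, x, _, i, _, rfl⟩ := ha
    simp only
    omega
  have h2 : deg (E2 T) 5 = 0 := deg_zero fun a ha => by
    unfold E2 at ha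
    obtain ⟨p, _, rfl⟩ := List.mem_map.1 ha
    simp only
    omega
  have h3 : deg [(2, 5)] 5 = 1 := by decide
  omega

theorem deg_copy (T : List (ℕ × ℕ × ℕ)) (y : ℕ) : deg (Ed T) (3 * y + 1) ≤ 3 * T.length := by
  unfold Ed
  rw [deg_append, deg_append]
  have h1 : deg (E1 T) (3 * y + 1) ≤ 3 * T.length := by
    unfold E1
    rw [deg_flatMap]
    refine (List.sum_le_card_nsmul _ 3 ?_).trans ?_
    · intro x hx
      obtain ⟨p, _, rfl⟩ := List.mem_map.1 hx
      exact deg_inc_copy _ _ _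
    · simp [mul_comm]
  have h2 : deg (E2 T) (3 * y + 1) = 0 := deg_zero fun a ha => by
    unfold E2 at ha
    obtain ⟨p, _, rfl⟩ := List.mem_map.1 ha
    simp only
    omega
  have h3 : deg [(2, 5)] (3 * y + 1) = 0 := deg_zero fun a ha => by
    simp only [List.mem_singleton] at ha
    subst ha
    simp only
    omega
  omega

theorem length_Ve (T : List (ℕ × ℕ × ℕ)) (q : ℕ) : (Ve T q).length = 2 + T.length + 3 * q * T.length := by
  unfold Ve
  simp only [List.length_cons, List.length_append, List.length_map, List.length_zipIdx,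
    List.length_range]
  omega

theorem subT_T {T : List (ℕ × ℕ × ℕ)} {q : ℕ} (hq : 1 ≤ q) (hqT : q ≤ T.length) :
    subT (Ve T q) (Ed T) = q + 1 := by
  refine subT_eq (d := 3 * T.length + 1) ?_ ?_ ?_ (2 :: (List.range q).map (fun j => 3 * j)) ?_ ?_ ?_
  · rw [length_Ve]
    omega
  · intro v hv
    rw [mem_Ve] at hv
    rcases hv with rfl | rfl | ⟨p, hp, rfl⟩ | ⟨y, _, rfl⟩
    · rw [deg_hub]; omega
    · rw [deg_pendant]; omega
    · rw [deg_triple (zip_lt hp)]
    · have := deg_copy T y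
      omega
  · rw [length_Ve]
    have h : q * (3 * T.length + 1) = 3 * q * T.length + q := by ring
    rw [h]
    omega
  · refine List.Nodup.subperm ?_ ?_
    · rw [List.nodup_cons]
      refine ⟨?_, List.nodup_range.map (fun a b (hab : 3 * a = 3 * b) => by omega)⟩
      rw [List.mem_map]
      rintro ⟨x, _, hx⟩
      omega
    · intro x hx
      rw [mem_Ve]
      rw [List.mem_cons, List.mem_map] at hx
      rcases hx with rfl | ⟨j, hj, rfl⟩
      · exact Or.inl rfl
      · obtain ⟨p, hp, h⟩ := zip_ex (T := T) (j := j) (by have := List.mem_range.1 hj; omega)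
        exact Or.inr (Or.inr (Or.inl ⟨p, hp, by rw [h]⟩))
  · simp
  · rw [length_Ve, List.map_cons, List.sum_cons, deg_hub, List.map_map]
    have h : ((List.range q).map (deg (Ed T) ∘ fun j => 3 * j)) =
        (List.range q).map (fun _ => 3 * T.length + 1) := by
      refine List.map_congr_left fun j hj => ?_
      exact deg_triple (by have := List.mem_range.1 hj; omega)
    rw [h]
    simp only [List.map_const', List.length_range, List.sum_replicate, smul_eq_mul]
    have h : q * (3 * T.length + 1) = 3 * q * T.length + q := by ring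
    rw [h]
    omega

/-! ### Total dominating sets -/

theorem tds_iff {T : List (ℕ × ℕ × ℕ)} {q : ℕ} (hq : 1 ≤ q) (hqT : q ≤ T.length) (k : ℕ) :
    (∃ S : Finset ℕ, IsTDS (Ve T q) (Ed T) S ∧ S.card ≤ k + 1) ↔
      ∃ J : Finset ℕ, (∀ j ∈ J, j < T.length) ∧ J.card ≤ k ∧
        ∀ x < 3 * q, ∃ j ∈ J, ∃ t, T[j]? = some t ∧ x ∈ el t := by
  constructor
  · rintro ⟨S, ⟨hSV, hS⟩, hc⟩
    have h2 : 2 ∈ S := by
      obtain ⟨u, hu, h⟩ := hS 5 (by rw [mem_Ve]; exact Or.inr (Or.inl rfl))
      unfold Adj at h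
      rw [mem_Ed, mem_Ed] at h
      rcases h with (⟨p, _, x, _, i, _, h1, h2⟩ | ⟨p, _, h1, h2⟩ | ⟨h1, h2⟩) |
        (⟨p, _, x, _, i, _, h1, h2⟩ | ⟨p, _, h1, h2⟩ | ⟨h1, h2⟩)
      · omega
      · omega
      · rwa [h1] at hu
      · omega
      · omega
      · omega
    refine ⟨(Finset.range T.length).filter (fun j => 3 * j ∈ S), ?_, ?_, ?_⟩
    · intro j hj
      exact Finset.mem_range.1 (Finset.mem_filter.1 hj).1
    · have h3 : (((Finset.range T.length).filter (fun j => 3 * j ∈ S)).image (fun j => 3 * j)).card =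
          ((Finset.range T.length).filter (fun j => 3 * j ∈ S)).card :=
        Finset.card_image_of_injective _ (fun a b (hab : 3 * a = 3 * b) => by omega)
      have h4 : ((Finset.range T.length).filter (fun j => 3 * j ∈ S)).image (fun j => 3 * j) ⊆
          S.erase 2 := by
        intro x hx
        obtain ⟨j, hj, rfl⟩ := Finset.mem_image.1 hx
        rw [Finset.mem_erase]
        exact ⟨by omega, (Finset.mem_filter.1 hj).2⟩
      have h5 := Finset.card_le_card h4
      rw [h3, Finset.card_erase_of_mem h2] at h5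
      omega
    · intro x hx
      obtain ⟨u, hu, h⟩ := hS (3 * (x * T.length + 0) + 1) (by
        rw [mem_Ve]
        exact Or.inr (Or.inr (Or.inr ⟨_, copy_lt hx (by omega), rfl⟩)))
      unfold Adj at h
      rw [mem_Ed, mem_Ed] at h
      rcases h with (⟨p, hp, x', hx', i, hi, h1, h2⟩ | ⟨p, _, h1, h2⟩ | ⟨h1, h2⟩) |
        (⟨p, _, x, _, i, _, h1, h2⟩ | ⟨p, _, h1, h2⟩ | ⟨h1, h2⟩)
      · refine ⟨p.2, ?_, p.1, mem_zip.1 hp, ?_⟩
        · rw [Finset.mem_filter, Finset.mem_range]
          exact ⟨zip_lt hp, by rwa [← h1]⟩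
        · have := (copy_inj (m := T.length) (x := x) (i := 0) (x' := x') (i' := i) (by omega) hi
            (by omega)).1
          rwa [this]
      all_goals omega
  · rintro ⟨J, hJ, hc, hcov⟩
    refine ⟨insert 2 (J.image (fun j => 3 * j)), ⟨?_, ?_⟩, ?_⟩
    · intro v hv
      rw [Finset.mem_insert, Finset.mem_image] at hv
      rw [mem_Ve]
      rcases hv with rfl | ⟨j, hj, rfl⟩
      · exact Or.inl rfl
      · obtain ⟨p, hp, h⟩ := zip_ex (hJ j hj)
        exact Or.inr (Or.inr (Or.inl ⟨p, hp, by rw [h]⟩))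
    · intro v hv
      rw [mem_Ve] at hv
      rcases hv with rfl | rfl | ⟨p, hp, rfl⟩ | ⟨y, hy, rfl⟩
      · obtain ⟨j, hj, t, ht, -⟩ := hcov 0 (by omega)
        refine ⟨3 * j, Finset.mem_insert_of_mem (Finset.mem_image.2 ⟨j, hj, rfl⟩), Or.inr ?_⟩
        rw [mem_Ed]
        exact Or.inr (Or.inl ⟨(t, j), mem_zip.2 ht, rfl, rfl⟩)
      · refine ⟨2, Finset.mem_insert_self _ _, Or.inl ?_⟩
        rw [mem_Ed]
        exact Or.inr (Or.inr ⟨rfl, rfl⟩)
      · refine ⟨2, Finset.mem_insert_self _ _, Or.inl ?_⟩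
        rw [mem_Ed]
        exact Or.inr (Or.inl ⟨p, hp, rfl, rfl⟩)
      · have hm : 0 < T.length := by omega
        have h1 : y / T.length < 3 * q := by
          rw [Nat.div_lt_iff_lt_mul hm]
          exact hy
        obtain ⟨j, hj, t, ht, hx⟩ := hcov _ h1
        refine ⟨3 * j, Finset.mem_insert_of_mem (Finset.mem_image.2 ⟨j, hj, rfl⟩), Or.inl ?_⟩
        rw [mem_Ed]
        refine Or.inl ⟨(t, j), mem_zip.2 ht, y / T.length, hx, y % T.length, Nat.mod_lt _ hm, rfl, ?_⟩
        rw [Nat.div_add_mod']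
    · refine (Finset.card_insert_le _ _).trans ?_
      have := Finset.card_image_le (s := J) (f := fun j => 3 * j)
      omega

/-- a cover has at least `q` triples -/
theorem cover_card {T : List (ℕ × ℕ × ℕ)} {q : ℕ} {J : Finset ℕ}
    (h : ∀ x < 3 * q, ∃ j ∈ J, ∃ t, T[j]? = some t ∧ x ∈ el t) : q ≤ J.card := by
  classical
  have h1 : Finset.range (3 * q) ⊆ J.biUnion (fun j => ((T[j]?).elim [] el).toFinset) := by
    intro x hx
    obtain ⟨j, hj, t, ht, hx⟩ := h x (Finset.mem_range.1 hx)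
    rw [Finset.mem_biUnion]
    refine ⟨j, hj, ?_⟩
    rw [ht]
    exact List.mem_toFinset.2 hx
  have h2 := Finset.card_le_card h1
  have h3 := Finset.card_biUnion_le_card_mul J (fun j => ((T[j]?).elim [] el).toFinset) 3 (fun j _ => by
    refine (List.toFinset_card_le _).trans ?_
    cases T[j]? <;> simp [el])
  rw [Finset.card_range] at h2
  omega

theorem gammaT_T {T : List (ℕ × ℕ × ℕ)} {q : ℕ} (hq : 1 ≤ q) (hqT : q ≤ T.length) :
    gammaT (Ve T q) (Ed T) = q + 1 ↔ X3C (T, q) := by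
  rw [X3C_iff_index]
  simp only
  rw [← tds_iff hq hqT]
  constructor
  · intro h
    have h1 := Nat.sInf_mem (s := {k : ℕ | ∃ S : Finset ℕ, IsTDS (Ve T q) (Ed T) S ∧ S.card = k})
      (Nat.nonempty_of_pos_sInf (by change 0 < gammaT (Ve T q) (Ed T); omega))
    obtain ⟨S, hS, hc⟩ := h1
    have hc : S.card = gammaT (Ve T q) (Ed T) := hc
    exact ⟨S, hS, by omega⟩
  · rintro ⟨S, hS, hc⟩
    have h1 : gammaT (Ve T q) (Ed T) ≤ S.card := Nat.sInf_le ⟨S, hS, rfl⟩
    have h2 := Nat.sInf_mem (s := {k : ℕ | ∃ S : Finset ℕ, IsTDS (Ve T q) (Ed T) S ∧ S.card = k})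
      ⟨_, S, hS, rfl⟩
    obtain ⟨S', hS', hc'⟩ := h2
    have hc' : S'.card = gammaT (Ve T q) (Ed T) := hc'
    have h3 : S'.card ≠ 0 := by
      intro h0
      rw [Finset.card_eq_zero] at h0
      subst h0
      obtain ⟨u, hu, -⟩ := hS'.2 2 (by rw [mem_Ve]; exact Or.inl rfl)
      simp at hu
    obtain ⟨J, hJ, hJc, hcov⟩ := (tds_iff hq hqT (S'.card - 1)).1 ⟨S', hS', by omega⟩
    have := cover_card hcov
    omega

end Pool.Agent.X130.TD
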