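import Mathlib
import Pool.Agent.X130.TD.Red

set_option autoImplicit false

/-!
# TDS-EQ is NP-complete
-/

namespace Pool.Agent.X130.TD

open Pool.Agent.NPC Pool.Agent.NPC.H632 Pool.Agent.NPC.H634R2

theorem adj_noInst_lt {u v : ℕ} (h : Adj [(0, 1), (1, 2), (0, 2), (3, 4)] u v) : u < 5 ∧ v < 5 := by
  unfold Adj at h
  simp only [List.mem_cons, Prod.mk.injEq, List.not_mem_nil, or_false] at h
  omega

/-- the instance `K₃ + K₂` is a no-instance -/
theorem noInst : ¬ TDSEQ ([0, 1, 2, 3, 4], [(0, 1), (1, 2), (0, 2), (3, 4)]) := by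
  rintro ⟨hG, -, h⟩
  simp only at hG h
  have h1 : subT [0, 1, 2, 3, 4] [(0, 1), (1, 2), (0, 2), (3, 4)] = 2 + 1 :=
    subT_eq (d := 2) (by decide) (by decide) (by decide) [0, 1, 2]
      (List.Nodup.subperm (by decide) (by decide)) (by decide) (by decide)
  rw [h1] at h
  have h2 := Nat.sInf_mem (s := {k : ℕ | ∃ S : Finset ℕ,
    IsTDS [0, 1, 2, 3, 4] [(0, 1), (1, 2), (0, 2), (3, 4)] S ∧ S.card = k})
    (Nat.nonempty_of_pos_sInf (by
      change 0 < gammaT [0, 1, 2, 3, 4] [(0, 1), (1, 2), (0, 2), (3, 4)]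
      omega))
  obtain ⟨S, ⟨hS1, hS2⟩, hc⟩ := h2
  have hc : S.card = gammaT [0, 1, 2, 3, 4] [(0, 1), (1, 2), (0, 2), (3, 4)] := hc
  have h3 : 3 ∈ S := by
    obtain ⟨u, hu, h⟩ := hS2 4 (by decide)
    unfold Adj at h
    simp only [List.mem_cons, Prod.mk.injEq, List.not_mem_nil, or_false] at h
    obtain rfl : u = 3 := by omega
    exact hu
  have h4 : 4 ∈ S := by
    obtain ⟨u, hu, h⟩ := hS2 3 (by decide)
    unfold Adj at h
    simp only [List.mem_cons, Prod.mk.injEq, List.not_mem_nil, or_false] at h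
    obtain rfl : u = 4 := by omega
    exact hu
  obtain ⟨a, ha, ha'⟩ := hS2 0 (by decide)
  obtain ⟨b, hb, hb'⟩ := hS2 a (by
    unfold Adj at ha'
    simp only [List.mem_cons, Prod.mk.injEq, List.not_mem_nil, or_false] at ha' ⊢
    omega)
  have h5 : ({3, 4, a, b} : Finset ℕ) ⊆ S := by
    intro x hx
    simp only [Finset.mem_insert, Finset.mem_singleton] at hx
    rcases hx with rfl | rfl | rfl | rfl <;> assumption
  have h6 := Finset.card_le_card h5
  have h7 : ({3, 4, a, b} : Finset ℕ).card = 4 := by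
    unfold Adj at ha' hb'
    simp only [List.mem_cons, Prod.mk.injEq, List.not_mem_nil, or_false] at ha' hb'
    rw [Finset.card_insert_of_notMem, Finset.card_insert_of_notMem, Finset.card_insert_of_notMem,
      Finset.card_singleton]
    · simp only [Finset.mem_singleton]; omega
    · simp only [Finset.mem_insert, Finset.mem_singleton]; omega
    · simp only [Finset.mem_insert, Finset.mem_singleton]; omega
  omega

theorem tred_correct (I : List (ℕ × ℕ × ℕ) × ℕ) (hI : X3CPr I) : X3C I ↔ TDSEQ (tred I) := by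
  obtain ⟨T, q⟩ := I
  obtain ⟨hT, hq, hqT⟩ := hI
  simp only at hT hq hqT
  unfold tred
  simp only
  rw [min_eq_left hqT]
  split_ifs with hc
  · simp only [List.all_eq_true, List.mem_range, List.any_eq_true, decide_eq_true_eq] at hc
    unfold TDSEQ
    simp only
    rw [subT_T hq hqT, gammaT_T hq hqT]
    refine ⟨fun h => ⟨isGraph_T hT, ?_, h⟩, fun h => h.2.2⟩
    intro v hv
    rw [mem_Ve] at hv
    rcases hv with rfl | rfl | ⟨p, hp, rfl⟩ | ⟨y, hy, rfl⟩
    · exact ⟨5, Or.inr (mem_Ed.2 (Or.inr (Or.inr ⟨rfl, rfl⟩)))⟩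
    · exact ⟨2, Or.inl (mem_Ed.2 (Or.inr (Or.inr ⟨rfl, rfl⟩)))⟩
    · exact ⟨2, Or.inl (mem_Ed.2 (Or.inr (Or.inl ⟨p, hp, rfl, rfl⟩)))⟩
    · have hm : 0 < T.length := by omega
      have h1 : y / T.length < 3 * q := by
        rw [Nat.div_lt_iff_lt_mul hm]
        exact hy
      obtain ⟨t, ht, hx⟩ := hc _ h1
      obtain ⟨j, hj, htj⟩ := List.getElem_of_mem ht
      refine ⟨3 * j, Or.inl (mem_Ed.2 (Or.inl ⟨(t, j), ?_, y / T.length, hx, y % T.length,
        Nat.mod_lt _ hm, rfl, ?_⟩))⟩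
      · rw [mem_zip, List.getElem?_eq_getElem hj, htj]
      · rw [Nat.div_add_mod']
  · refine ⟨fun h => ?_, fun h => absurd h noInst⟩
    exfalso
    apply hc
    simp only [List.all_eq_true, List.mem_range, List.any_eq_true, decide_eq_true_eq]
    intro x hx
    obtain ⟨J, _, _, hcov⟩ := X3C_iff_index.1 h
    obtain ⟨j, _, t, ht, hxt⟩ := hcov x hx
    exact ⟨t, List.mem_of_getElem? ht, hxt⟩

theorem rng_poly {α : Type} [TEnc α] {f : α → List (ℕ × ℕ × ℕ) × ℕ} (hf : NPC.Poly f) :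
    NPC.Poly (fun a => List.range (3 * min (f a).2 (f a).1.length)) := by
  refine UPoly.range (UPoly.mul (UPoly.const 3) (UPoly.of_le (n := fun a => (f a).1.length) ?_
    (UPoly.length (by fun_prop)) (fun a => min_le_right _ _)))
  fun_prop

theorem rng2_poly {α : Type} [TEnc α] {f : α → List (ℕ × ℕ × ℕ) × ℕ} (hf : NPC.Poly f) :
    NPC.Poly (fun a => List.range (3 * min (f a).2 (f a).1.length * (f a).1.length)) := by
  refine UPoly.range (UPoly.mul (UPoly.mul (UPoly.const 3) (UPoly.of_le (n := fun a => (f a).1.length) ?_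
    (UPoly.length (by fun_prop)) (fun a => min_le_right _ _))) (UPoly.length (by fun_prop)))
  fun_prop

theorem rng3_poly {α : Type} [TEnc α] {f : α → List (ℕ × ℕ × ℕ)} (hf : NPC.Poly f) :
    NPC.Poly (fun a => List.range (f a).length) := (UPoly.length hf).range

attribute [local fun_prop] rng_poly rng2_poly rng3_poly

theorem tred_poly : NPC.Poly tred := by
  unfold tred Ve Ed E1 E2 inc el
  fun_prop

theorem hard : NPHardP TDSEQ :=
  (hardPr_X3C.trans (Pr' := fun _ => True) tred_poly (fun _ _ => trivial) tred_correct).toHardI.toNPHardP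

end Pool.Agent.X130.TD
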