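import Mathlib
import Pool.Agent.X130.TD.Main

set_option autoImplicit false

/-!
# TDS-EQ is in NP
-/

namespace Pool.Agent.X130.TD

open Pool.Agent.NPC Pool.Agent.NPC.H634R2 Pool.Agent.X130.RB

/-- other end of an edge -/
def oth (u : ℕ) (e : ℕ × ℕ) : ℕ := if e.1 = u then e.2 else e.1

theorem card_le_sum_deg {V : List ℕ} {E : List (ℕ × ℕ)} (hV : V.Nodup) {S : Finset ℕ}
    (hS : IsTDS V E S) : V.length ≤ (S.toList.map (deg E)).sum := by
  classical
  rw [Finset.sum_map_toList, ← List.toFinset_card_of_nodup hV]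
  have h1 : V.toFinset ⊆ S.biUnion (fun u =>
      ((E.filter (fun e => decide (e.1 = u ∨ e.2 = u))).map (oth u)).toFinset) := by
    intro v hv
    obtain ⟨u, hu, h⟩ := hS.2 v (List.mem_toFinset.1 hv)
    rw [Finset.mem_biUnion]
    refine ⟨u, hu, ?_⟩
    rw [List.mem_toFinset, List.mem_map]
    rcases h with h | h
    · exact ⟨(u, v), List.mem_filter.2 ⟨h, by simp⟩, by simp [oth]⟩
    · refine ⟨(v, u), List.mem_filter.2 ⟨h, by simp⟩, ?_⟩
      unfold oth
      simp only
      split_ifs with h1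
      · exact h1.symm
      · rfl
  refine (Finset.card_le_card h1).trans (Finset.card_biUnion_le.trans (Finset.sum_le_sum ?_))
  intro u _
  refine (List.toFinset_card_le _).trans ?_
  rw [List.length_map]
  unfold deg
  rw [List.countP_eq_length_filter]

theorem tds_card_le {V : List ℕ} {E : List (ℕ × ℕ)} {S : Finset ℕ}
    (hS : IsTDS V E S) : S.card ≤ V.length := by
  classical
  have h1 : S ⊆ V.toFinset := fun v hv => List.mem_toFinset.2 (hS.1 v hv)
  exact (Finset.card_le_card h1).trans (List.toFinset_card_le _)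

theorem tds_mem {V : List ℕ} {E : List (ℕ × ℕ)} (hV : V.Nodup) {S : Finset ℕ}
    (hS : IsTDS V E S) :
    S.card ∈ {k : ℕ | k ≤ V.length ∧ V.length ≤ ((degSeq V E).take k).sum} := by
  refine ⟨tds_card_le hS, (card_le_sum_deg hV hS).trans ?_⟩
  have h1 : (S.toList.map (deg E)).Subperm (degSeq V E) := by
    obtain ⟨l₀, hp, hs⟩ := S.nodup_toList.subperm (fun v hv => hS.1 v (Finset.mem_toList.1 hv))
    exact List.Subperm.trans ⟨l₀.map (deg E), hp.map _, hs.map _⟩ (degSeq_perm V E).symm.subperm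
  have h2 := sum_le_take _ (degSeq_sorted V E) _ h1
  rwa [List.length_map, Finset.length_toList] at h2

theorem sum_take_mono (l : List ℕ) {i j : ℕ} (h : i ≤ j) : (l.take i).sum ≤ (l.take j).sum := by
  have h1 : l.take i = (l.take j).take i := by rw [List.take_take, min_eq_left h]
  rw [h1]
  exact List.Sublist.sum_le_sum (List.take_sublist _ _) (fun _ _ => Nat.zero_le _)

/-- the certificates -/
def Cert (G : List ℕ × List (ℕ × ℕ)) (w : List ℕ × List ℕ × List ℕ) : Prop :=
  IsGraph G.1 G.2 ∧ (∀ v ∈ G.1, ∃ e ∈ G.2, e.1 = v ∨ e.2 = v) ∧ w.1.Nodup ∧ (∀ v ∈ w.1, v ∈ G.1) ∧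
    (∀ v ∈ G.1, ∃ u ∈ w.1, (u, v) ∈ G.2 ∨ (v, u) ∈ G.2) ∧
    (w.2.1 ++ w.2.2).Pairwise (fun a b => b ≤ a) ∧
    (∀ x ∈ (w.2.1 ++ w.2.2) ++ G.1.map (deg G.2),
      (w.2.1 ++ w.2.2).countP (fun y => decide (y = x)) =
        (G.1.map (deg G.2)).countP (fun y => decide (y = x))) ∧
    (w.1.length = 0 ∨ (w.2.1.length + 1 = w.1.length ∧ w.2.1.sum < G.1.length))

theorem perm_of_count {l l' : List ℕ}
    (h : ∀ x ∈ l ++ l', l.countP (fun y => decide (y = x)) = l'.countP (fun y => decide (y = x))) :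
    l.Perm l' := by
  rw [List.perm_iff_count]
  intro a
  have h1 : ∀ l : List ℕ, List.count a l = l.countP (fun y => decide (y = a)) := by
    intro l
    unfold List.count
    congr 1
  rw [h1, h1]
  by_cases ha : a ∈ l ++ l'
  · exact h a ha
  · rw [List.mem_append, not_or] at ha
    rw [← h1, ← h1, List.count_eq_zero_of_not_mem ha.1, List.count_eq_zero_of_not_mem ha.2]

theorem tdseq_iff (G : List ℕ × List (ℕ × ℕ)) : TDSEQ G ↔ ∃ w, Cert G w := by
  obtain ⟨V, E⟩ := G
  constructor
  · rintro ⟨hG, hI, h⟩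
    simp only at hG hI h
    have hne : {k : ℕ | ∃ S : Finset ℕ, IsTDS V E S ∧ S.card = k}.Nonempty := by
      refine ⟨_, V.toFinset, ⟨fun v hv => List.mem_toFinset.1 hv, fun v hv => ?_⟩, rfl⟩
      obtain ⟨u, hu⟩ := hI v hv
      refine ⟨u, ?_, hu⟩
      rw [List.mem_toFinset]
      rcases hu with hu | hu
      · exact (hG.2.1 _ hu).1
      · exact (hG.2.1 _ hu).2.1
    obtain ⟨S, hS, hc⟩ := Nat.sInf_mem hne
    have hc : S.card = gammaT V E := hc
    have hc2 := tds_card_le hS
    refine ⟨(S.toList, (degSeq V E).take (S.card - 1), (degSeq V E).drop (S.card - 1)), ?_⟩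
    unfold Cert
    simp only [List.take_append_drop]
    refine ⟨hG, ?_, S.nodup_toList, fun v hv => hS.1 v (Finset.mem_toList.1 hv), ?_,
      degSeq_sorted V E, ?_, ?_⟩
    · intro v hv
      obtain ⟨u, hu⟩ := hI v hv
      rcases hu with hu | hu
      · exact ⟨_, hu, Or.inr rfl⟩
      · exact ⟨_, hu, Or.inl rfl⟩
    · intro v hv
      obtain ⟨u, hu, h⟩ := hS.2 v hv
      exact ⟨u, Finset.mem_toList.2 hu, h⟩
    · intro x _
      exact (degSeq_perm V E).countP_eq _
    · rw [Finset.length_toList]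
      by_cases h0 : S.card = 0
      · exact Or.inl h0
      · right
        have hl : (degSeq V E).length = V.length := by
          rw [(degSeq_perm V E).length_eq, List.length_map]
        rw [List.length_take, hl]
        refine ⟨by omega, ?_⟩
        by_contra hcon
        push Not at hcon
        have h1 : S.card - 1 ∈ {k : ℕ | k ≤ V.length ∧ V.length ≤ ((degSeq V E).take k).sum} :=
          ⟨by omega, hcon⟩
        have h2 : subT V E ≤ S.card - 1 := Nat.sInf_le h1
        omega
  · rintro ⟨⟨L, D₁, D₂⟩, hG, hI, hL, hLV, hdom, hsort, hcount, hlast⟩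
    simp only at hG hI hL hLV hdom hsort hcount hlast
    classical
    have hS : IsTDS V E L.toFinset := ⟨fun v hv => hLV v (List.mem_toFinset.1 hv), fun v hv => by
      obtain ⟨u, hu, h⟩ := hdom v hv
      exact ⟨u, List.mem_toFinset.2 hu, h⟩⟩
    have hcard : L.toFinset.card = L.length := List.toFinset_card_of_nodup hL
    refine ⟨hG, ?_, ?_⟩
    · intro v hv
      obtain ⟨⟨a, b⟩, he, h | h⟩ := hI v hv
      · simp only at h
        subst h
        exact ⟨b, Or.inr he⟩
      · simp only at h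
        subst h
        exact ⟨a, Or.inl he⟩
    · simp only
      have hD : D₁ ++ D₂ = degSeq V E := by
        refine List.Perm.eq_of_pairwise (le := fun a b => b ≤ a) ?_ hsort (degSeq_sorted V E)
          ((perm_of_count hcount).trans (degSeq_perm V E).symm)
        intro a b _ _ h1 h2
        omega
      obtain ⟨S', hS', hc'⟩ := Nat.sInf_mem (s := {k : ℕ | ∃ S : Finset ℕ, IsTDS V E S ∧ S.card = k})
        ⟨_, _, hS, rfl⟩
      have hc' : S'.card = gammaT V E := hc'
      have h1 : subT V E ≤ S'.card := Nat.sInf_le (tds_mem hG.1 hS')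
      have h2 : gammaT V E ≤ L.toFinset.card := Nat.sInf_le ⟨_, hS, rfl⟩
      have h3 := Nat.sInf_mem (s := {k : ℕ | k ≤ V.length ∧ V.length ≤ ((degSeq V E).take k).sum})
        ⟨_, tds_mem hG.1 hS⟩
      have h3 : V.length ≤ ((degSeq V E).take (subT V E)).sum := h3.2
      have h4 : L.length ≤ subT V E := by
        by_contra hcon
        rcases hlast with h0 | ⟨h5, h6⟩
        · omega
        · have h7 : (degSeq V E).take (L.length - 1) = D₁ := by
            rw [← hD]
            have : L.length - 1 = D₁.length := by omega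
            rw [this, List.take_left']
            rfl
          have h8 := sum_take_mono (degSeq V E) (i := subT V E) (j := L.length - 1) (by omega)
          rw [h7] at h8
          omega
      omega

theorem deg_poly {α : Type} [TEnc α] {E : α → List (ℕ × ℕ)} {v : α → ℕ} (hE : NPC.Poly E)
    (hv : NPC.Poly v) : NPC.Poly (fun a => deg (E a) (v a)) := by
  unfold deg
  simp only [List.countP_eq_length_filter]
  fun_prop

attribute [local fun_prop] deg_poly

theorem cert_pp : PP (fun x : (List ℕ × List (ℕ × ℕ)) × (List ℕ × List ℕ × List ℕ) => Cert x.1 x.2) := by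
  unfold Cert
  refine PP.and (pp_isGraph (by fun_prop) (by fun_prop)) (PP.and ?_ (PP.and (Y592.OP.pp_nodup (by fun_prop))
    (PP.and ?_ (PP.and ?_ (PP.and ?_ (PP.and ?_ ?_))))))
  · exact PP.ball (by fun_prop) (PP.bex (by fun_prop) (PP.or (PP.eq (by fun_prop) (by fun_prop))
      (PP.eq (by fun_prop) (by fun_prop))))
  · exact PP.ball (by fun_prop) (PP.mem (by fun_prop) (by fun_prop))
  · exact PP.ball (by fun_prop) (PP.bex (by fun_prop) (PP.or (PP.mem (by fun_prop) (by fun_prop))
      (PP.mem (by fun_prop) (by fun_prop))))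
  · exact Y592.OP.pp_pairwise (by fun_prop) (PP.le (by fun_prop) (by fun_prop))
  · simp only [List.countP_eq_length_filter]
    exact PP.ball (by fun_prop) (PP.eq (by fun_prop) (by fun_prop))
  · exact PP.or (PP.eq (by fun_prop) (by fun_prop)) (PP.and (PP.eq (by fun_prop) (by fun_prop))
      (PP.lt (by fun_prop) (by fun_prop)))

theorem sz_nat_le_len {n k : ℕ} (h : n ≤ k) : sz n ≤ 4 * k + 1 := by
  have h1 := sz_nat_le n
  have h2 : n.size ≤ n := Nat.size_le.2 Nat.lt_two_pow_self
  omega

theorem cert_short {G : List ℕ × List (ℕ × ℕ)} {w : List ℕ × List ℕ × List ℕ} (h : Cert G w) :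
    sz w ≤ (Polynomial.X * (Polynomial.X + 1) + 1 + (Polynomial.X * (4 * Polynomial.X + 2) + 1 +
      (Polynomial.X * (4 * Polynomial.X + 2) + 1)) + 2 : Polynomial ℕ).eval (sz G) := by
  obtain ⟨V, E⟩ := G
  obtain ⟨L, D₁, D₂⟩ := w
  obtain ⟨hG, hI, hL, hLV, hdom, hsort, hcount, hlast⟩ := h
  simp only at hG hI hL hLV hdom hsort hcount hlast
  simp only [Polynomial.eval_add, Polynomial.eval_mul, Polynomial.eval_X, Polynomial.eval_one,
    Polynomial.eval_ofNat]
  have hsz : sz (V, E) = sz V + sz E + 1 := by rw [sz_pair]; try omega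
  set s := sz (V, E) with hs
  have h1 : sz L ≤ s * (s + 1) + 1 := sz_cert hL hLV (by omega)
  have hperm := perm_of_count hcount
  have hlen : D₁.length + D₂.length = V.length := by
    have := hperm.length_eq
    rwa [List.length_append, List.length_map] at this
  have hVl := length_lt_sz V
  have hEl := length_lt_sz E
  have hbd : ∀ d ∈ D₁ ++ D₂, sz d ≤ 4 * s + 1 := by
    intro d hd
    obtain ⟨v, _, rfl⟩ := List.mem_map.1 (hperm.mem_iff.1 hd)
    refine sz_nat_le_len ?_
    have : deg E v ≤ E.length := List.countP_le_length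
    omega
  have h2 := sz_le_length_mul D₁ (4 * s + 1) (fun d hd => hbd d (List.mem_append_left _ hd))
  have h3 := sz_le_length_mul D₂ (4 * s + 1) (fun d hd => hbd d (List.mem_append_right _ hd))
  have h4 : D₁.length * (4 * s + 1 + 1) ≤ s * (4 * s + 2) := Nat.mul_le_mul (by omega) (by omega)
  have h5 : D₂.length * (4 * s + 1 + 1) ≤ s * (4 * s + 2) := Nat.mul_le_mul (by omega) (by omega)
  rw [sz_pair, sz_pair]
  omega

theorem mem : InNPP TDSEQ := by
  obtain ⟨b, hb, hb'⟩ := cert_pp
  refine inNPP_of (β := List ℕ × List ℕ × List ℕ) hb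
    (Polynomial.X * (Polynomial.X + 1) + 1 + (Polynomial.X * (4 * Polynomial.X + 2) + 1 +
      (Polynomial.X * (4 * Polynomial.X + 2) + 1)) + 2 : Polynomial ℕ) (fun G => ?_)
  rw [tdseq_iff]
  exact exists_congr fun w => ⟨fun h => ⟨cert_short h, (hb' (G, w)).2 h⟩, fun h => (hb' (G, w)).1 h.2⟩

end Pool.Agent.X130.TD
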